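import Mathlib
import Pool.Agent.L0h42.CP.C8
import Pool.Agent.L0h42.PP.P7
import Pool.Agent.H373R2.T7.LamMaj

/-! The number of primes in a class to a modulus which is at most a power of the logarithm. -/

set_option autoImplicit false

namespace Pool.Agent.L0h42.SC
open Finset
open Pool.Agent.L0h42.TB
open Pool.Agent.L0h42.EG
open Pool.Agent.L0h42.CP
open Pool.Agent.H373R2.T7

open Classical in
lemma nonprime_le (x : ℕ) (hx : 1 ≤ x) (P : ℕ → Prop) :
    ∑ n ∈ (Icc 1 x).filter (fun n => P n ∧ ¬ n.Prime), ArithmeticFunction.vonMangoldt n ≤ 2 * √(x : ℝ) * Real.log x := by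
  have h1 := Chebyshev.psi_sub_theta_le (x := (x : ℝ)) (by exact_mod_cast hx)
  refine le_trans ?_ h1
  have e1 : Chebyshev.psi (x : ℝ) = ∑ n ∈ Icc 1 x, ArithmeticFunction.vonMangoldt n := by
    rw [← lam1_eq]; rfl
  have e2 : Chebyshev.theta (x : ℝ) = ∑ n ∈ (Icc 1 x).filter Nat.Prime, ArithmeticFunction.vonMangoldt n := by
    unfold Chebyshev.theta
    rw [Nat.floor_natCast]
    have : Ioc 0 x = Icc 1 x := by
      ext n; rw [mem_Ioc, mem_Icc]; omega
    rw [this]
    apply sum_congr rfl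
    intro p hp
    rw [ArithmeticFunction.vonMangoldt_apply_prime (mem_filter.1 hp).2]
  rw [e1, e2, ← sum_filter_add_sum_filter_not (Icc 1 x) Nat.Prime, add_sub_cancel_left]
  apply sum_le_sum_of_subset_of_nonneg
  · intro n hn
    rw [mem_filter] at hn ⊢
    exact ⟨hn.1, hn.2.2⟩
  · intro _ _ _
    exact ArithmeticFunction.vonMangoldt_nonneg

open Classical in
theorem primes_class (K K2 : ℕ) : ∃ N0 : ℕ, ∀ N : ℕ, N0 ≤ N → ∀ W r T : ℕ, 1 ≤ W → (W : ℝ) ≤ Real.log N ^ K → r < W → r.Coprime W →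
    W * T + r ≤ N → N / Real.log N ^ K2 ≤ (T : ℝ) →
    (T : ℝ) / (2 * Real.log N) ≤ (((Icc 1 T).filter (fun s => (W * s + r).Prime)).card : ℝ) := by
  obtain ⟨n1, h1⟩ := lam_ap K (K2 + 1)
  obtain ⟨n2, h2⟩ := ev_L' 16
  obtain ⟨n3, h3⟩ := ev_log' (K2 + 2) 32
  refine ⟨max (max n1 n2) (max n3 4), fun N hN W r T hW hWK hr hcop hx hT => ?_⟩
  have q1 : n1 ≤ N := le_trans (le_trans (le_max_left _ _) (le_max_left _ _)) hN
  have q2 : n2 ≤ N := le_trans (le_trans (le_max_right _ _) (le_max_left _ _)) hN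
  have q3 : n3 ≤ N := le_trans (le_trans (le_max_left _ _) (le_max_right _ _)) hN
  have q4 : 4 ≤ N := le_trans (le_trans (le_max_right _ _) (le_max_right _ _)) hN
  have b2 := h2 N q2
  have b3 := h3 N q3
  have hN0 : (0 : ℝ) < N := by exact_mod_cast (by omega : 0 < N)
  have key := h1 N q1 W hW hWK r (W * T + r) hx
  rw [if_pos hcop] at key
  set L := Real.log N with hL
  have hL0 : 0 < L := by linarith
  have hL1 : 1 ≤ L := by linarith
  obtain ⟨x, hxd⟩ : ∃ x, x = W * T + r := ⟨_, rfl⟩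
  rw [← hxd] at key hx
  have hsq0 : 0 < √(N : ℝ) := Real.sqrt_pos.2 hN0
  have hsq : √(N : ℝ) * √(N : ℝ) = N := Real.mul_self_sqrt hN0.le
  -- `T` is large
  have hTs : 32 * (√(N : ℝ) * L ^ 2) ≤ T := by
    refine le_trans ?_ hT
    rw [le_div_iff₀ (by positivity)]
    calc 32 * (√(N : ℝ) * L ^ 2) * L ^ K2 = √(N : ℝ) * (32 * L ^ (K2 + 2)) := by rw [pow_add]; ring
      _ ≤ √(N : ℝ) * √(N : ℝ) := mul_le_mul_of_nonneg_left b3 hsq0.le
      _ = N := hsq
  have hsN1 : 1 ≤ √(N : ℝ) := by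
    rw [Real.one_le_sqrt]
    exact_mod_cast (by omega : 1 ≤ N)
  have hT1 : 32 * L ≤ T := by
    refine le_trans ?_ hTs
    have : L ≤ √(N : ℝ) * L ^ 2 := by nlinarith
    linarith
  have hT0 : (0 : ℝ) < T := by linarith
  have hTn : 1 ≤ T := by exact_mod_cast (show (0:ℝ) < T from hT0)
  have hx1 : 1 ≤ x := by
    have := Nat.mul_pos (show 0 < W by omega) (show 0 < T by omega)
    omega
  have herr : (N : ℝ) / L ^ (K2 + 1) ≤ T / 16 := by
    rw [pow_succ, ← div_div]
    calc (N : ℝ) / L ^ K2 / L ≤ T / L := div_le_div_of_nonneg_right hT hL0.le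
      _ ≤ T / 16 := div_le_div_of_nonneg_left hT0.le (by norm_num) b2
  have hmain : (T : ℝ) ≤ (x : ℝ) / (Nat.totient W : ℝ) := by
    have hφ0 : (0 : ℝ) < Nat.totient W := by exact_mod_cast Nat.totient_pos.2 (by omega)
    have hφ : (Nat.totient W : ℝ) ≤ W := by exact_mod_cast Nat.totient_le W
    rw [le_div_iff₀ hφ0, hxd]
    push_cast
    have : (T : ℝ) * Nat.totient W ≤ T * W := mul_le_mul_of_nonneg_left hφ hT0.le
    have hr0 : (0 : ℝ) ≤ r := Nat.cast_nonneg r
    linarith
  have hnp : ∑ n ∈ (Icc 1 x).filter (fun n => n ≡ r [MOD W] ∧ ¬ n.Prime), ArithmeticFunction.vonMangoldt n ≤ 2 * √(x : ℝ) * Real.log x := by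
    convert nonprime_le x hx1 (fun n => n ≡ r [MOD W])
  have hsplit : ∑ n ∈ (Icc 1 x).filter (fun n => n ≡ r [MOD W]), ArithmeticFunction.vonMangoldt n =
      ∑ n ∈ (Icc 1 x).filter (fun n => n ≡ r [MOD W] ∧ n.Prime), ArithmeticFunction.vonMangoldt n +
      ∑ n ∈ (Icc 1 x).filter (fun n => n ≡ r [MOD W] ∧ ¬ n.Prime), ArithmeticFunction.vonMangoldt n := by
    rw [← sum_filter_add_sum_filter_not ((Icc 1 x).filter (fun n => n ≡ r [MOD W])) Nat.Prime, filter_filter, filter_filter]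
  have hlogx : Real.log x ≤ L := by
    rw [hL]
    apply Real.log_le_log (by exact_mod_cast hx1)
    exact_mod_cast hx
  have hpr : ∑ n ∈ (Icc 1 x).filter (fun n => n ≡ r [MOD W] ∧ n.Prime), ArithmeticFunction.vonMangoldt n ≤
      ((((Icc 1 T).filter (fun s => (W * s + r).Prime)).card : ℝ) + 1) * L := by
    have g1 : ∀ n ∈ (Icc 1 x).filter (fun n => n ≡ r [MOD W] ∧ n.Prime), ArithmeticFunction.vonMangoldt n ≤ L := by
      intro n hn
      rw [mem_filter, mem_Icc] at hn
      refine (ArithmeticFunction.vonMangoldt_le_log).trans (le_trans ?_ hlogx)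
      apply Real.log_le_log (by exact_mod_cast hn.1.1)
      exact_mod_cast hn.1.2
    refine (sum_le_sum g1).trans ?_
    rw [sum_const, nsmul_eq_mul]
    apply mul_le_mul_of_nonneg_right _ hL0.le
    have g2 : ((Icc 1 x).filter (fun n => n ≡ r [MOD W] ∧ n.Prime)).card ≤ (insert 0 ((Icc 1 T).filter (fun s => (W * s + r).Prime))).card := by
      apply card_le_card_of_injOn (fun n => n / W)
      · intro n hn
        rw [mem_coe, mem_filter, mem_Icc] at hn
        obtain ⟨⟨g3, g4⟩, g5, g6⟩ := hn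
        have g7 : n % W = r := by
          have : n % W = r % W := g5
          rwa [Nat.mod_eq_of_lt hr] at this
        have g8 := Nat.div_add_mod n W
        rw [mem_coe, mem_insert, mem_filter, mem_Icc]
        by_cases g9 : n / W = 0
        · left
          exact g9
        · right
          dsimp only
          refine ⟨⟨Nat.one_le_iff_ne_zero.2 g9, ?_⟩, ?_⟩
          · by_contra hcon
            push Not at hcon
            have : W * (T + 1) ≤ W * (n / W) := Nat.mul_le_mul_left _ hcon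
            rw [mul_add, mul_one] at this
            omega
          · have : W * (n / W) + r = n := by omega
            rwa [this]
      · intro n hn n' hn' h
        rw [mem_coe, mem_filter] at hn hn'
        have e1 : n % W = n' % W := hn.2.1.trans hn'.2.1.symm
        have e2 : n / W = n' / W := h
        rw [← Nat.div_add_mod n W, ← Nat.div_add_mod n' W, e1, e2]
    have g3 := g2.trans (card_insert_le _ _)
    exact_mod_cast g3
  have hnp2 : 2 * √(x : ℝ) * Real.log x ≤ T / 16 := by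
    have g1 : √(x : ℝ) ≤ √(N : ℝ) := Real.sqrt_le_sqrt (by exact_mod_cast hx)
    have g2 : 0 ≤ Real.log x := Real.log_nonneg (by exact_mod_cast hx1)
    have g3 : 2 * √(x : ℝ) * Real.log x ≤ 2 * √(N : ℝ) * L := by gcongr
    have g4 : √(N : ℝ) * L ≤ √(N : ℝ) * L ^ 2 := by
      apply mul_le_mul_of_nonneg_left _ hsq0.le
      nlinarith
    linarith
  have habs := (abs_le.1 key).1
  rw [hsplit] at habs
  rw [div_le_iff₀ (by positivity)]
  obtain ⟨cc, hcc⟩ : ∃ cc : ℝ, cc = (((Icc 1 T).filter (fun s => (W * s + r).Prime)).card : ℝ) := ⟨_, rfl⟩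
  rw [← hcc] at hpr ⊢
  have e1 : (cc + 1) * L = cc * L + L := by ring
  rw [e1] at hpr
  have e2 : cc * (2 * L) = 2 * (cc * L) := by ring
  rw [e2]
  linarith

end Pool.Agent.L0h42.SC
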