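import Mathlib
import Pool.Agent.L0h42.SC.S1

/-! One prime `p` and many of the `p + n + H l`, for almost all `n`. -/

set_option autoImplicit false

namespace Pool.Agent.L0h42.SC
open Finset
open Pool.Agent.L0h42.TB
open Pool.Agent.L0h42.EG
open Pool.Agent.L0h42.CP
open Pool.Agent.L0h42.PP
open Pool.Agent.H373R2.T7

section
variable {k : ℕ}

/-- the primes `p ≤ n / Q` for which at least `m` of the `p + n + H l` are prime -/
def SC (Q m : ℕ) (H : Fin k → ℕ) (n : ℕ) : Finset ℕ :=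
  (Icc 1 n).filter (fun p => Q * p ≤ n ∧ p.Prime ∧ m ≤ (univ.filter (fun l => (p + n + H l).Prime)).card)

/-- no local obstruction -/
def NoOb (H : Fin k → ℕ) (n : ℕ) : Prop := ∀ p : ℕ, p.Prime → ∃ x : ℕ, ¬ p ∣ x ∧ ∀ l, ¬ p ∣ x + n + H l

end

set_option maxHeartbeats 4000000 in
open Classical in
/-- one dyadic block -/
theorem block (m : ℕ) (hm : 1 ≤ m) : ∃ k : ℕ, 1 ≤ k ∧ ∀ H : Fin k → ℕ, Function.Injective H →
    ∀ Q : ℕ, 1 ≤ Q → ∀ δ : ℝ, 0 < δ → ∃ E Y0 : ℕ, ∀ Y' : ℕ, Y0 ≤ Y' →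
    (((Ioc (2 * Y') (4 * Y')).filter (fun n => NoOb H n ∧ ((SC Q m H n).card : ℝ) < n / Real.log n ^ E)).card : ℝ) ≤ δ * Y' := by
  obtain ⟨k, hk, hcore⟩ := core_aff m hm
  refine ⟨k, hk, fun H hH Q hQ δ₀ hδ₀ => ?_⟩
  obtain ⟨δ, hδd⟩ : ∃ δ : ℝ, δ = min (δ₀ / 2) 1 := ⟨_, rfl⟩
  have hδ : 0 < δ := by rw [hδd]; exact lt_min (by linarith) one_pos
  have hδ1 : δ ≤ 1 := by rw [hδd]; exact min_le_right _ _
  have hδ2 : δ ≤ δ₀ / 2 := by rw [hδd]; exact min_le_left _ _
  obtain ⟨K0, hK0, hc⟩ := hcore 2 δ hδ hδ1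
  obtain ⟨K, hK⟩ : ∃ K, K = K0 + 2 := ⟨_, rfl⟩
  obtain ⟨D, n2, hc2⟩ := hc (2 * K + 2)
  obtain ⟨n1, hp1⟩ := primes_class (2 * K + 1) (2 * K + 2)
  obtain ⟨E, hE⟩ : ∃ E, E = D + 2 * K + 2 := ⟨_, rfl⟩
  obtain ⟨n3, h3⟩ := Wp_log K
  obtain ⟨n4, h4⟩ := ll_small (K + 1)
  obtain ⟨n5, h5⟩ := ev_L' (max (8 + 4 * 2 ^ E + 56 * Q : ℝ) (∑ l, (H l : ℝ)))
  obtain ⟨n6, h6⟩ := ev_log' (2 * K + 2) 1000
  refine ⟨E, max (max (max n1 n2) (max n3 n4)) (max (max n5 n6) 8), fun Y' hY' => ?_⟩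
  obtain ⟨N, hN⟩ : ∃ N, N = 14 * Y' := ⟨_, rfl⟩
  have h8 : 8 ≤ Y' := le_trans (le_trans (le_max_right _ _) (le_max_right _ _)) hY'
  have hYN : Y' ≤ N := by omega
  have q1 : n1 ≤ N := le_trans (le_trans (le_trans (le_max_left _ _) (le_max_left _ _)) (le_trans (le_max_left _ _) hY')) hYN
  have q2 : n2 ≤ N := le_trans (le_trans (le_trans (le_max_right _ _) (le_max_left _ _)) (le_trans (le_max_left _ _) hY')) hYN
  have q3 : n3 ≤ N := le_trans (le_trans (le_trans (le_max_left _ _) (le_max_right _ _)) (le_trans (le_max_left _ _) hY')) hYN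
  have q4 : n4 ≤ N := le_trans (le_trans (le_trans (le_max_right _ _) (le_max_right _ _)) (le_trans (le_max_left _ _) hY')) hYN
  have q5 : n5 ≤ N := le_trans (le_trans (le_trans (le_max_left _ _) (le_max_left _ _)) (le_trans (le_max_right _ _) hY')) hYN
  have q6 : n6 ≤ N := le_trans (le_trans (le_trans (le_max_right _ _) (le_max_left _ _)) (le_trans (le_max_right _ _) hY')) hYN
  have b5 := h5 N q5
  have b6 := h6 N q6
  obtain ⟨hll, hl1⟩ := h4 N q4
  obtain ⟨w, hw⟩ : ∃ w, w = ⌈(K : ℝ) * Real.log (Real.log N)⌉₊ := ⟨_, rfl⟩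
  have b3 := h3 N q3 w hw
  have hcc := hc2 N q2
  have hpp := hp1 N q1
  obtain ⟨L, hL⟩ : ∃ L, L = Real.log (N : ℝ) := ⟨_, rfl⟩
  rw [← hL] at b5 b6 hll hl1 hw b3 hcc hpp
  obtain ⟨l, hl⟩ : ∃ l, l = Real.log L := ⟨_, rfl⟩
  rw [← hl] at hll hl1 hw hcc
  have l0 : (8 + 4 * 2 ^ E + 56 * Q : ℝ) ≤ L := le_trans (le_max_left _ _) b5
  have hQr : (1 : ℝ) ≤ Q := by exact_mod_cast hQ
  have hE0 : (0 : ℝ) < 4 * 2 ^ E := by positivity
  have lE : (4 * 2 ^ E : ℝ) ≤ L := by linarith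
  have lQ : (56 * Q : ℝ) ≤ L := by linarith
  have hL8 : 8 ≤ L := by linarith
  have hL0 : 0 < L := by linarith
  have hL1 : 1 ≤ L := by linarith
  have l2 : ∑ l, (H l : ℝ) ≤ L := le_trans (le_max_right _ _) b5
  have hHL : ∀ i, (H i : ℝ) ≤ L := fun i => (single_le_sum (f := fun i => (H i : ℝ)) (fun _ _ => Nat.cast_nonneg _) (mem_univ i)).trans l2
  -- the parameter `w`
  have hKr : (K : ℝ) = K0 + 2 := by rw [hK]; push_cast; ring
  have hK0r : (0 : ℝ) ≤ K0 := Nat.cast_nonneg _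
  have hw1 : (K : ℝ) * l ≤ w := by rw [hw]; exact Nat.le_ceil _
  have hw2 : (w : ℝ) ≤ K * l + 1 := by
    rw [hw]
    exact (Nat.ceil_lt_add_one (by positivity)).le
  have hwL : (w : ℝ) ≤ L := by
    refine le_trans ?_ hll
    have : (K : ℝ) * l + 1 ≤ (K + 1) * l := by linarith
    have h7 : (K + 1 : ℝ) * l ≤ (K + 1) * l ^ 2 := by
      apply mul_le_mul_of_nonneg_left _ (by positivity)
      nlinarith
    linarith
  have hw3 : (K0 : ℝ) * l ≤ w := by
    refine le_trans ?_ hw1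
    rw [hKr]
    nlinarith
  obtain ⟨W, hW⟩ : ∃ W, W = Wp w := ⟨_, rfl⟩
  have hW0 : 0 < W := by rw [hW]; exact Wp_pos w
  have hWr : (0 : ℝ) < W := by exact_mod_cast hW0
  rw [← hW] at b3
  have hN0 : (0 : ℝ) < N := by exact_mod_cast (by omega : 0 < N)
  have hsqN : √(N : ℝ) ≤ N := by
    rw [Real.sqrt_le_left hN0.le]
    have : (1 : ℝ) ≤ N := by exact_mod_cast (by omega : 1 ≤ N)
    nlinarith
  have hWL : 1000 * (W * L) ≤ (N : ℝ) := by
    refine le_trans ?_ (b6.trans hsqN)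
    have : (W : ℝ) * L ≤ L ^ (2 * K + 1) * L := mul_le_mul_of_nonneg_right b3 hL0.le
    have e : L ^ (2 * K + 2) = L ^ (2 * K + 1) * L := by rw [← pow_succ]
    rw [e]
    linarith
  have hNr : (N : ℝ) = 14 * Y' := by rw [hN]; push_cast; ring
  have hWQ : 4000 * Q * W ≤ Y' := by
    have h7 : (W : ℝ) * (56 * Q) ≤ W * L := mul_le_mul_of_nonneg_left lQ hWr.le
    have h9 : (4000 * Q * W : ℝ) ≤ Y' := by
      rw [hNr] at hWL
      linarith
    exact_mod_cast h9
  have hY'0 : (0 : ℝ) < Y' := by exact_mod_cast (by omega : 0 < Y')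
  obtain ⟨U, hU⟩ : ∃ U, U = Y' / W := ⟨_, rfl⟩
  obtain ⟨Y, hY⟩ : ∃ Y, Y = 2 * U := ⟨_, rfl⟩
  have hUQ : 4000 * Q ≤ U := by
    rw [hU]
    exact (Nat.le_div_iff_mul_le hW0).2 hWQ
  have hWU : W * U ≤ Y' := by rw [hU]; exact Nat.mul_div_le Y' W
  have hWU2 : Y' < W * (U + 1) := by rw [hU]; exact Nat.lt_mul_div_succ Y' hW0
  have hU3 : 4000 ≤ U := by omega
  have hWU3 : 4000 * W ≤ Y' := by
    have : W * 4000 ≤ W * U := Nat.mul_le_mul_left _ hU3
    omega
  have hYlow : (Y' : ℝ) / W ≤ Y := by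
    rw [div_le_iff₀ hWr]
    have h7 : Y' ≤ Y * W := by
      have e1 : Y * W = W * U + W * U := by rw [hY]; ring
      have e2 : W * (U + 1) = W * U + W := by ring
      have e3 : W ≤ W * U := Nat.le_mul_of_pos_right _ (by omega)
      omega
    exact_mod_cast h7
  have hYpos : (0 : ℝ) < Y := by exact_mod_cast (by omega : 0 < Y)
  -- the number of points
  obtain ⟨T, hT⟩ : ∃ T, T = Y / (2 * Q) := ⟨_, rfl⟩
  have hTU : T = U / Q := by
    rw [hT, hY]
    exact Nat.mul_div_mul_left _ _ (by norm_num)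
  have hTQ : Q * T ≤ U := by rw [hTU]; exact Nat.mul_div_le U Q
  have hTQ2 : U < Q * (T + 1) := by rw [hTU]; exact Nat.lt_mul_div_succ U (by omega)
  have hTY : T ≤ U := by rw [hTU]; exact Nat.div_le_self _ _
  have hT4000 : 4000 ≤ T := by
    rw [hTU]
    exact (Nat.le_div_iff_mul_le (by omega)).2 hUQ
  have hTlow : (Y : ℝ) / (4 * Q) ≤ T := by
    rw [div_le_iff₀ (by positivity)]
    have h7 : Y ≤ T * (4 * Q) := by
      have e1 : T * (4 * Q) = 4 * (Q * T) := by ring
      have e2 : Q * (T + 1) = Q * T + Q := by ring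
      have e3 : Q ≤ Q * T := Nat.le_mul_of_pos_right _ (by omega)
      omega
    exact_mod_cast h7
  have hNY : (N : ℝ) / L ^ (2 * K + 2) ≤ Y / (4 * Q) := by
    rw [div_le_div_iff₀ (by positivity) (by positivity)]
    have e1 : (Y' : ℝ) ≤ Y * W := by
      have := hYlow
      rwa [div_le_iff₀ hWr] at this
    have e2 : L ^ (2 * K + 2) = L ^ (2 * K + 1) * L := by rw [← pow_succ]
    rw [e2, hNr]
    calc 14 * (Y' : ℝ) * (4 * Q) = Y' * (56 * Q) := by ring
      _ ≤ (Y * W) * L := by gcongr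
      _ ≤ (Y * L ^ (2 * K + 1)) * L := by gcongr
      _ = _ := by ring
  have hNT : (N : ℝ) / L ^ (2 * K + 2) ≤ T := hNY.trans hTlow
  have hNY1 : (N : ℝ) / L ^ (2 * K + 2) ≤ Y := by
    refine hNY.trans ?_
    exact div_le_self hYpos.le (by linarith)
  -- the threshold
  have hthr : ∀ n : ℕ, 2 * Y' < n → n ≤ 4 * Y' → (n : ℝ) / Real.log n ^ E ≤ Y / L ^ D := by
    intro n hn1 hn2
    have g1 : L ≤ 2 * Real.log n := by
      have : (N : ℝ) ≤ (n : ℝ) ^ 2 := by
        have : N ≤ n ^ 2 := by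
          have k1 : 16 * n ≤ n * n := Nat.mul_le_mul_right _ (by omega)
          rw [sq]
          omega
        exact_mod_cast this
      have h9 := Real.log_le_log hN0 this
      rw [Real.log_pow, ← hL] at h9
      exact_mod_cast h9
    have hn0 : (n : ℝ) ≤ 4 * Y' := by exact_mod_cast hn2
    have g2 : (L / 2) ^ E ≤ Real.log n ^ E := pow_le_pow_left₀ (by positivity) (by linarith) E
    have g3 : (n : ℝ) / Real.log n ^ E ≤ 4 * Y' / (L / 2) ^ E := div_le_div₀ (by positivity) hn0 (by positivity) g2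
    refine g3.trans ?_
    have g4 : (Y' : ℝ) / L ^ (2 * K + 1) ≤ Y := by
      refine le_trans ?_ hYlow
      exact div_le_div_of_nonneg_left hY'0.le hWr b3
    have g5 : 4 * (Y' : ℝ) / (L / 2) ^ E = (4 * 2 ^ E / L) * ((Y' : ℝ) / L ^ (2 * K + 1) / L ^ D) := by
      have e1 : L ^ E = L * L ^ (2 * K + 1) * L ^ D := by rw [hE]; ring
      rw [div_pow, e1]
      field_simp
    rw [g5]
    have g6 : 4 * 2 ^ E / L ≤ 1 := by rw [div_le_one hL0]; exact lE
    calc (4 * 2 ^ E / L) * ((Y' : ℝ) / L ^ (2 * K + 1) / L ^ D) ≤ 1 * ((Y' : ℝ) / L ^ (2 * K + 1) / L ^ D) := mul_le_mul_of_nonneg_right g6 (by positivity)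
      _ = (Y' : ℝ) / L ^ (2 * K + 1) / L ^ D := one_mul _
      _ ≤ _ := by gcongr
  -- the exceptional set, by classes
  obtain ⟨F, hF⟩ : ∃ F, F = (Ioc (2 * Y') (4 * Y')).filter (fun n => NoOb H n ∧ ((SC Q m H n).card : ℝ) < n / Real.log n ^ E) := ⟨_, rfl⟩
  rw [← hF]
  have hclass : ∀ b ∈ range W, ((F.filter (fun n => n % W = b)).card : ℝ) ≤ δ * Y := by
    intro b hb
    rw [mem_range] at hb
    by_cases hne : (F.filter (fun n => n % W = b)).Nonempty
    swap
    · rw [not_nonempty_iff_eq_empty] at hne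
      rw [hne, card_empty]
      push_cast
      positivity
    obtain ⟨n₀, hn₀⟩ := hne
    rw [mem_filter, hF, mem_filter] at hn₀
    obtain ⟨⟨_, hno, _⟩, hn₀b⟩ := hn₀
    -- the class of the primes
    obtain ⟨x, hx⟩ : ∃ x : ℕ → ℕ, ∀ p, p.Prime → ¬ p ∣ x p ∧ ∀ l, ¬ p ∣ x p + n₀ + H l := by
      refine ⟨fun p => if h : p.Prime then (hno p h).choose else 0, fun p hp => ?_⟩
      simp only [dif_pos hp]
      exact (hno p hp).choose_spec
    obtain ⟨r, hr, hrx⟩ := crt_small w x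
    rw [← hW] at hr
    have hrp : ∀ p ∈ pz w, ¬ p ∣ r ∧ ∀ l, ¬ p ∣ (b + r) + H l := by
      intro p hp
      have hpp := (mem_pz.1 hp).2
      have hpW : p ∣ W := by rw [hW]; exact dvd_Wp hp
      have h1 := hrx p hp
      have h2 : n₀ ≡ b [MOD p] := by
        have : n₀ ≡ b [MOD W] := by
          show n₀ % W = b % W
          rw [hn₀b, Nat.mod_eq_of_lt hb]
        exact this.of_dvd hpW
      refine ⟨fun h => (hx p hpp).1 ((h1.dvd_iff dvd_rfl).1 h), fun l h => (hx p hpp).2 l ?_⟩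
      have h3 : x p + n₀ + H l ≡ b + r + H l [MOD p] := by
        have := (h1.symm.add h2).add_right (H l)
        have e : b + r + H l = r + b + H l := by ring
        rw [e]
        exact this
      exact (h3.dvd_iff dvd_rfl).2 h
    have hcop : r.Coprime W := by
      rw [hW]
      unfold Wp
      apply Nat.Coprime.prod_right
      intro p hp
      exact ((((mem_pz.1 hp).2.coprime_iff_not_dvd).2 (hrp p hp).1)).symm
    obtain ⟨M, hM⟩ : ∃ M, M = (Icc 1 Y).filter (fun s => Y + 1 - s ≤ T ∧ (W * (Y + 1 - s) + r).Prime) := ⟨_, rfl⟩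
    have hMsub : M ⊆ Icc 1 Y := by rw [hM]; exact filter_subset _ _
    have hMcard : (Y : ℝ) / L ^ 2 ≤ M.card := by
      have g1 := hpp W r T (by omega) b3 hr hcop (by
        have : W * T ≤ W * U := Nat.mul_le_mul_left _ hTY
        omega) hNT
      have g2 : ((Icc 1 T).filter (fun s => (W * s + r).Prime)).card ≤ M.card := by
        apply card_le_card_of_injOn (fun s => Y + 1 - s)
        · intro s hs
          rw [mem_coe, mem_filter, mem_Icc] at hs
          rw [hM, mem_coe, mem_filter, mem_Icc]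
          dsimp only
          have e1 : Y + 1 - (Y + 1 - s) = s := by omega
          rw [e1]
          exact ⟨⟨by omega, by omega⟩, hs.1.2, hs.2⟩
        · intro s hs s' hs' h
          rw [mem_coe, mem_filter, mem_Icc] at hs hs'
          simp only at h
          omega
      have g3 : (((Icc 1 T).filter (fun s => (W * s + r).Prime)).card : ℝ) ≤ M.card := by exact_mod_cast g2
      refine le_trans ?_ (g1.trans g3)
      calc (Y : ℝ) / L ^ 2 = (Y / (4 * Q)) * ((4 * Q) / L ^ 2) := by field_simp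
        _ ≤ T * (1 / (2 * L)) := by
            apply mul_le_mul hTlow _ (by positivity) (Nat.cast_nonneg _)
            rw [div_le_div_iff₀ (by positivity) (by positivity)]
            calc 4 * (Q : ℝ) * (2 * L) = (8 * Q) * L := by ring
              _ ≤ L * L := by gcongr; linarith
              _ = 1 * L ^ 2 := by ring
        _ = _ := by ring
    have hcall := hcc Y w (b + r) hw3 hwL (by
      rw [← hW]
      have e1 : W * Y = 2 * (W * U) := by rw [hY]; ring
      omega) hNY1 H hH hHL (fun l p hp => (hrp p hp).2 l) M hMsub hMcard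
    refine le_trans ?_ hcall
    apply Nat.cast_le.2
    apply card_le_card_of_injOn (fun n => n / W + Y + 1)
    · intro n hn
      rw [mem_coe, mem_filter, hF, mem_filter, mem_Ioc] at hn
      obtain ⟨⟨⟨hn1, hn2⟩, hn3, hn4⟩, hn5⟩ := hn
      have hnd := Nat.div_add_mod n W
      rw [hn5] at hnd
      have hc1 : Y ≤ n / W := by
        rw [Nat.le_div_iff_mul_le hW0]
        have e1 : Y * W = 2 * (W * U) := by rw [hY]; ring
        omega
      have hc2 : n / W ≤ 4 * U + 4 := by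
        apply Nat.le_of_lt_succ
        rw [Nat.div_lt_iff_lt_mul hW0]
        have e1 : (4 * U + 4).succ * W = 4 * (W * (U + 1)) + W := by
          rw [Nat.succ_eq_add_one]; ring
        rw [e1]
        omega
      rw [mem_coe, mem_filter, mem_Ioc]
      dsimp only
      refine ⟨⟨by omega, by omega⟩, ?_⟩
      by_contra hcon
      push Not at hcon
      have hthn := (hthr n hn1 hn2).trans hcon
      have hinj : ((M.filter (fun s => m ≤ np H (Wp w * (n / W + Y + 1 - s) + (b + r)))).card : ℝ) ≤ (SC Q m H n).card := by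
        apply Nat.cast_le.2
        apply card_le_card_of_injOn (fun s => W * (Y + 1 - s) + r)
        · intro s hs
          rw [mem_coe, mem_filter, hM, mem_filter, mem_Icc, ← hW] at hs
          obtain ⟨⟨⟨hs1, hs2⟩, hs3, hs4⟩, hs5⟩ := hs
          rw [mem_coe]
          unfold SC
          rw [mem_filter, mem_Icc]
          dsimp only
          have g0 : W * (Y + 1 - s) + r ≤ W * (T + 1) := by
            have : W * (Y + 1 - s) ≤ W * T := Nat.mul_le_mul_left _ hs3
            rw [mul_add, mul_one]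
            omega
          have g1 : Q * (T + 1) ≤ Y := by
            rw [mul_add, mul_one, hY]
            omega
          have g2 : Q * (W * (Y + 1 - s) + r) ≤ n := by
            calc Q * (W * (Y + 1 - s) + r) ≤ Q * (W * (T + 1)) := Nat.mul_le_mul_left _ g0
              _ = W * (Q * (T + 1)) := by ring
              _ ≤ W * (n / W) := Nat.mul_le_mul_left _ (g1.trans hc1)
              _ ≤ n := Nat.mul_div_le n W
          have g3 : W * (Y + 1 - s) + r ≤ Q * (W * (Y + 1 - s) + r) := Nat.le_mul_of_pos_left _ (by omega)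
          refine ⟨⟨hs4.pos, g3.trans g2⟩, g2, hs4, hs5.trans (le_of_eq ?_)⟩
          unfold np
          congr 1
          apply filter_congr
          intro l _
          have e1 : n / W + Y + 1 - s = n / W + (Y + 1 - s) := by omega
          have e2 : W * (n / W + Y + 1 - s) + (b + r) + H l = W * (Y + 1 - s) + r + n + H l := by
            rw [e1, mul_add]
            omega
          rw [e2]
        · intro s hs s' hs' h
          rw [mem_coe, mem_filter, hM, mem_filter, mem_Icc] at hs hs'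
          simp only at h
          have h9 : W * (Y + 1 - s) = W * (Y + 1 - s') := by omega
          have h10 := Nat.eq_of_mul_eq_mul_left hW0 h9
          omega
      linarith
    · intro n hn n' hn' h
      rw [mem_coe, mem_filter] at hn hn'
      simp only at h
      have e1 : n / W = n' / W := by omega
      have e2 : n % W = n' % W := hn.2.trans hn'.2.symm
      rw [← Nat.div_add_mod n W, ← Nat.div_add_mod n' W, e1, e2]
  -- summation
  have hFc : F.card = ∑ b ∈ range W, (F.filter (fun n => n % W = b)).card := by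
    apply card_eq_sum_card_fiberwise
    intro n _
    rw [mem_coe, mem_range]
    exact Nat.mod_lt _ hW0
  rw [hFc]
  push_cast
  refine (sum_le_sum hclass).trans ?_
  rw [sum_const, card_range, nsmul_eq_mul]
  have hWU' : (W : ℝ) * U ≤ Y' := by exact_mod_cast hWU
  have hYr : (Y : ℝ) = 2 * U := by rw [hY]; push_cast; ring
  rw [hYr]
  calc (W : ℝ) * (δ * (2 * U)) = 2 * δ * (W * U) := by ring
    _ ≤ 2 * δ * Y' := by gcongr
    _ ≤ 2 * (δ₀ / 2) * Y' := by gcongr
    _ = δ₀ * Y' := by ring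

open Classical in
/-- **one prime and many of the `p + n + H l`.** -/
theorem tuple (m : ℕ) (hm : 1 ≤ m) : ∃ k : ℕ, 1 ≤ k ∧ ∀ H : Fin k → ℕ, Function.Injective H →
    ∀ Q : ℕ, 1 ≤ Q → ∀ ε : ℝ, 0 < ε → ∃ E X0 : ℕ, ∀ X : ℕ, X0 ≤ X →
    (((Icc 1 X).filter (fun n => NoOb H n ∧ ((SC Q m H n).card : ℝ) < n / Real.log n ^ E)).card : ℝ) ≤ ε * X := by
  obtain ⟨k, hk, hb⟩ := block m hm
  refine ⟨k, hk, fun H hH Q hQ ε hε => ?_⟩
  obtain ⟨E, Y0, h0⟩ := hb H hH Q hQ (ε / 2) (by linarith)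
  obtain ⟨K, hK⟩ := dyadic_sum (fun n => NoOb H n ∧ ((SC Q m H n).card : ℝ) < n / Real.log n ^ E) (ε / 2) (by linarith) Y0 h0
  refine ⟨E, ⌈2 * K / ε⌉₊, fun X hX => ?_⟩
  refine (hK X).trans ?_
  have q1 : 2 * (K : ℝ) / ε ≤ X := (Nat.le_ceil _).trans (by exact_mod_cast hX)
  rw [div_le_iff₀ hε] at q1
  linarith

end Pool.Agent.L0h42.SC
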