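import Mathlib
import Pool.Agent.L0h42.SC.S2
import Pool.Agent.L0h42.PP.P11

/-! One prime `p` and the primes `p + 2 c`, `p + 2 (c + d)`, `d ∈ D`: all `c` up to a proportion `κ / C`. -/

set_option autoImplicit false

namespace Pool.Agent.L0h42.SC
open Finset
open Pool.Agent.L0h42.TB
open Pool.Agent.L0h42.EG
open Pool.Agent.L0h42.CP
open Pool.Agent.L0h42.PP
open Pool.Agent.H373R2.T7

section
variable {k : ℕ}

/-- the primes `p ≤ c / Q` for which all the `p + 2 (c + h i)`, `i ∈ I`, are prime -/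
def RI (Q : ℕ) (h : Fin k → ℕ) (I : Finset (Fin k)) (c : ℕ) : Finset ℕ :=
  (Icc 1 c).filter (fun p => Q * p ≤ c ∧ p.Prime ∧ ∀ i ∈ I, (p + 2 * (c + h i)).Prime)

lemma noob (h : Fin k → ℕ) (hh : ∀ p : ℕ, p.Prime → p ≤ k + 1 → ∀ l, p ∣ h l) (c : ℕ) : NoOb (fun l => 2 * h l) (2 * c) := by
  classical
  intro p hp
  by_cases hpk : p ≤ k + 1
  · have h1 := hh p hp hpk
    by_cases hp2 : p = 2
    · refine ⟨1, ?_, fun l => ?_⟩
      · rw [hp2]; norm_num
      · rw [hp2]
        show ¬ 2 ∣ 1 + 2 * c + 2 * h l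
        omega
    · have hp3 : 3 ≤ p := by have := hp.two_le; omega
      by_cases h2 : p ∣ 1 + 2 * c
      · refine ⟨2, fun h => ?_, fun l h => ?_⟩
        · have := Nat.le_of_dvd (by norm_num) h
          omega
        · have h3 : p ∣ 2 + 2 * c := (Nat.dvd_add_left ((h1 l).mul_left 2)).1 h
          have h4 : 2 + 2 * c = (1 + 2 * c) + 1 := by ring
          rw [h4] at h3
          have h5 := (Nat.dvd_add_right h2).1 h3
          have := Nat.le_of_dvd (by norm_num) h5
          omega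
      · refine ⟨1, fun h => ?_, fun l h => h2 ((Nat.dvd_add_left ((h1 l).mul_left 2)).1 h)⟩
        have := Nat.le_of_dvd (by norm_num) h
        omega
  · push Not at hpk
    obtain ⟨B, hB⟩ : ∃ B, B = insert 0 (univ.image (fun l : Fin k => (p - (2 * c + 2 * h l) % p) % p)) := ⟨_, rfl⟩
    have hBc : B.card < (range p).card := by
      rw [card_range, hB]
      refine lt_of_le_of_lt (card_insert_le _ _) ?_
      have : (univ.image (fun l : Fin k => (p - (2 * c + 2 * h l) % p) % p)).card ≤ k := by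
        refine card_image_le.trans ?_
        rw [card_univ, Fintype.card_fin]
      omega
    obtain ⟨x, hx1, hx2⟩ := exists_mem_notMem_of_card_lt_card hBc
    rw [mem_range] at hx1
    rw [hB, mem_insert, mem_image] at hx2
    push Not at hx2
    obtain ⟨hx3, hx4⟩ := hx2
    refine ⟨x, fun h => ?_, fun l h' => ?_⟩
    · have := Nat.le_of_dvd (Nat.pos_of_ne_zero hx3) h
      omega
    · have h5 := hx4 l (mem_univ l)
      apply h5
      have h6 : (x + (2 * c + 2 * h l)) % p = 0 := by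
        have := Nat.mod_eq_zero_of_dvd h'
        rwa [add_assoc] at this
      obtain ⟨a, ha⟩ : ∃ a, a = (2 * c + 2 * h l) % p := ⟨_, rfl⟩
      have hap : a < p := by rw [ha]; exact Nat.mod_lt _ hp.pos
      have h7 : (x + a) % p = 0 := by rw [ha, Nat.add_mod_mod]; exact h6
      rw [← ha]
      by_cases ha0 : a = 0
      · rw [ha0, add_zero, Nat.mod_eq_of_lt hx1] at h7
        rw [ha0, h7]
        simp
      · have h8 : x + a = p := by
          rcases Nat.lt_or_ge (x + a) p with h9 | h9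
          · rw [Nat.mod_eq_of_lt h9] at h7
            omega
          · have h10 : (x + a) % p = x + a - p := by
              rw [Nat.mod_eq_sub_mod h9, Nat.mod_eq_of_lt (by omega)]
            omega
        have h11 : p - a = x := by omega
        rw [h11, Nat.mod_eq_of_lt hx1]

open Classical in
/-- a fixed set of indices -/
theorem tupleI (m : ℕ) (hm : 1 ≤ m) : ∃ k : ℕ, 1 ≤ k ∧ ∀ h : Fin k → ℕ, Function.Injective h →
    (∀ p : ℕ, p.Prime → p ≤ k + 1 → ∀ l, p ∣ h l) → ∀ Q : ℕ, 1 ≤ Q → ∀ ε : ℝ, 0 < ε → ∃ E X0 : ℕ, ∀ X : ℕ, X0 ≤ X →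
    (((Icc 1 X).filter (fun c : ℕ => ¬ ∃ I : Finset (Fin k), I.card = m ∧ (c : ℝ) / Real.log c ^ E ≤ ((RI Q h I c).card : ℝ))).card : ℝ) ≤ ε * X := by
  obtain ⟨k, hk, ht⟩ := tuple m hm
  refine ⟨k, hk, fun h hinj hh Q hQ ε hε => ?_⟩
  obtain ⟨E, X0, h0⟩ := ht (fun l => 2 * h l) (fun i j hij => hinj (by simp only at hij; omega)) (2 * Q) (by omega) (ε / 4) (by linarith)
  obtain ⟨n1, h1⟩ := ev_L' (2 ^ k * 2 ^ E + 1)
  obtain ⟨n0, hn0⟩ : ∃ n0, n0 = max n1 3 := ⟨_, rfl⟩
  refine ⟨E + 1, max X0 ⌈2 * n0 / ε⌉₊, fun X hX => ?_⟩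
  have q1 : X0 ≤ 2 * X := by have := le_trans (le_max_left _ _) hX; omega
  have q2 : 2 * (n0 : ℝ) / ε ≤ X := (Nat.le_ceil _).trans (by exact_mod_cast le_trans (le_max_right _ _) hX)
  have key := h0 (2 * X) q1
  have hsub : ((Icc 1 X).filter (fun c : ℕ => ¬ ∃ I : Finset (Fin k), I.card = m ∧ (c : ℝ) / Real.log c ^ (E + 1) ≤ ((RI Q h I c).card : ℝ))).card ≤
      n0 + ((Icc 1 (2 * X)).filter (fun n => NoOb (fun l => 2 * h l) n ∧ ((SC (2 * Q) m (fun l => 2 * h l) n).card : ℝ) < n / Real.log n ^ E)).card := by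
    have e1 : (range n0).card = n0 := card_range n0
    rw [← e1]
    refine le_trans ?_ (add_le_add le_rfl (card_image_le (s := ((Icc 1 (2 * X)).filter (fun n => NoOb (fun l => 2 * h l) n ∧
      ((SC (2 * Q) m (fun l => 2 * h l) n).card : ℝ) < n / Real.log n ^ E))) (f := fun n => n / 2)))
    refine le_trans (card_le_card ?_) (card_union_le _ _)
    intro c hc
    rw [mem_filter, mem_Icc] at hc
    obtain ⟨⟨hc1, hc2⟩, hc3⟩ := hc
    rw [mem_union, mem_range, mem_image]
    by_cases hc4 : c < n0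
    · exact Or.inl hc4
    · right
      refine ⟨2 * c, ?_, by omega⟩
      rw [mem_filter, mem_Icc]
      refine ⟨⟨by omega, by omega⟩, noob h hh c, ?_⟩
      by_contra hcon
      push Not at hcon
      apply hc3
      have hn5 : n1 ≤ c := le_trans (le_max_left _ _) (by rw [← hn0]; omega)
      have hn6 : 3 ≤ c := le_trans (le_max_right _ _) (by rw [← hn0]; omega)
      have b1 := h1 c hn5
      have hp : (1 : ℝ) ≤ 2 ^ k * 2 ^ E := by
        have a1 : (1 : ℝ) ≤ 2 ^ k := one_le_pow₀ (by norm_num)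
        have a2 : (1 : ℝ) ≤ 2 ^ E := one_le_pow₀ (by norm_num)
        nlinarith
      have hL0 : 0 < Real.log c := by linarith
      have hcr : (3 : ℝ) ≤ c := by exact_mod_cast hn6
      have g1 : Real.log ((2 * c : ℕ) : ℝ) ≤ 2 * Real.log c := by
        have : ((2 * c : ℕ) : ℝ) ≤ (c : ℝ) ^ 2 := by push_cast; nlinarith
        have h9 := Real.log_le_log (by push_cast; linarith) this
        rw [Real.log_pow] at h9
        exact_mod_cast h9
      have g0 : 0 < Real.log ((2 * c : ℕ) : ℝ) := by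
        apply Real.log_pos
        push_cast
        linarith
      have g2 : Real.log ((2 * c : ℕ) : ℝ) ^ E ≤ (2 * Real.log c) ^ E := pow_le_pow_left₀ g0.le g1 E
      have g3 : 2 ^ k * ((c : ℝ) / Real.log c ^ (E + 1)) ≤ ((2 * c : ℕ) : ℝ) / Real.log ((2 * c : ℕ) : ℝ) ^ E := by
        rw [← mul_div_assoc, div_le_div_iff₀ (by positivity) (by positivity)]
        push_cast at g2 ⊢
        calc 2 ^ k * (c : ℝ) * Real.log (2 * c) ^ E ≤ 2 ^ k * c * (2 * Real.log c) ^ E := mul_le_mul_of_nonneg_left g2 (by positivity)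
          _ = c * ((2 ^ k * 2 ^ E) * Real.log c ^ E) := by rw [mul_pow]; ring
          _ ≤ c * (Real.log c * Real.log c ^ E) := by
              apply mul_le_mul_of_nonneg_left _ (by linarith)
              apply mul_le_mul_of_nonneg_right _ (by positivity)
              linarith
          _ = 1 * c * Real.log c ^ (E + 1) := by ring
          _ ≤ 2 * c * Real.log c ^ (E + 1) := by gcongr; norm_num
      have g4 := g3.trans hcon
      -- the pigeonhole principle
      by_contra hno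
      push Not at hno
      have g5 : (SC (2 * Q) m (fun l => 2 * h l) (2 * c)) ⊆ (univ.filter (fun I : Finset (Fin k) => I.card = m)).biUnion (fun I => RI Q h I c) := by
        intro p hp
        unfold SC at hp
        rw [mem_filter, mem_Icc] at hp
        obtain ⟨⟨hp1, _⟩, hp2, hp3, hp4⟩ := hp
        obtain ⟨I, hI1, hI2⟩ := exists_subset_card_eq hp4
        rw [mem_biUnion]
        refine ⟨I, by rw [mem_filter]; exact ⟨mem_univ _, hI2⟩, ?_⟩
        unfold RI
        rw [mem_filter, mem_Icc]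
        have hp5 : Q * p ≤ c := by
          have : 2 * Q * p = 2 * (Q * p) := by ring
          omega
        have hp6 : p ≤ Q * p := Nat.le_mul_of_pos_left _ (by omega)
        refine ⟨⟨hp1, hp6.trans hp5⟩, hp5, hp3, fun i hi => ?_⟩
        have h7 := (mem_filter.1 (hI1 hi)).2
        have e2 : p + 2 * c + 2 * h i = p + 2 * (c + h i) := by ring
        rwa [e2] at h7
      have g6 : ((SC (2 * Q) m (fun l => 2 * h l) (2 * c)).card : ℝ) ≤ ∑ I ∈ univ.filter (fun I : Finset (Fin k) => I.card = m), ((RI Q h I c).card : ℝ) := by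
        exact_mod_cast (card_le_card g5).trans card_biUnion_le
      have g7 : ∀ I ∈ univ.filter (fun I : Finset (Fin k) => I.card = m), ((RI Q h I c).card : ℝ) ≤ (c : ℝ) / Real.log c ^ (E + 1) := by
        intro I hI
        exact (hno I (mem_filter.1 hI).2).le
      have g8 := g6.trans (sum_le_sum g7)
      rw [sum_const, nsmul_eq_mul] at g8
      have g9 : (((univ.filter (fun I : Finset (Fin k) => I.card = m)).card : ℕ) : ℝ) ≤ 2 ^ k := by
        have : (univ.filter (fun I : Finset (Fin k) => I.card = m)).card ≤ 2 ^ k := by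
          refine (card_filter_le _ _).trans ?_
          rw [card_univ, Fintype.card_finset, Fintype.card_fin]
        exact_mod_cast this
      -- a contradiction if some set is strictly smaller
      obtain ⟨I0, hI0⟩ : ∃ I0 ∈ univ.filter (fun I : Finset (Fin k) => I.card = m), (RI Q h I0 c).Nonempty := by
        have hpos : 0 < (SC (2 * Q) m (fun l => 2 * h l) (2 * c)).card := by
          have : (0 : ℝ) < ((SC (2 * Q) m (fun l => 2 * h l) (2 * c)).card : ℝ) := lt_of_lt_of_le (by positivity) g4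
          exact_mod_cast this
        obtain ⟨p, hp⟩ := card_pos.1 hpos
        have := g5 hp
        rw [mem_biUnion] at this
        obtain ⟨I, hI, hpI⟩ := this
        exact ⟨I, hI, ⟨p, hpI⟩⟩
      have g10 : ∑ I ∈ univ.filter (fun I : Finset (Fin k) => I.card = m), ((RI Q h I c).card : ℝ) <
          ∑ _I ∈ univ.filter (fun I : Finset (Fin k) => I.card = m), (c : ℝ) / Real.log c ^ (E + 1) := by
        apply sum_lt_sum_of_nonempty ⟨I0, hI0.1⟩
        intro I hI
        exact hno I (mem_filter.1 hI).2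
      rw [sum_const, nsmul_eq_mul] at g10
      have g11 : (((univ.filter (fun I : Finset (Fin k) => I.card = m)).card : ℕ) : ℝ) * ((c : ℝ) / Real.log c ^ (E + 1)) ≤
          2 ^ k * ((c : ℝ) / Real.log c ^ (E + 1)) := mul_le_mul_of_nonneg_right g9 (by positivity)
      linarith
  have hsub' : (((Icc 1 X).filter (fun c : ℕ => ¬ ∃ I : Finset (Fin k), I.card = m ∧ (c : ℝ) / Real.log c ^ (E + 1) ≤ ((RI Q h I c).card : ℝ))).card : ℝ) ≤
      n0 + (((Icc 1 (2 * X)).filter (fun n => NoOb (fun l => 2 * h l) n ∧ ((SC (2 * Q) m (fun l => 2 * h l) n).card : ℝ) < n / Real.log n ^ E)).card : ℝ) := by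
    exact_mod_cast hsub
  rw [div_le_iff₀ hε] at q2
  push_cast at key
  linarith

/-- the primes `p ≤ c / Q` for which `p + 2 c` and all the `p + 2 (c + d)`, `d ∈ D`, are prime -/
def RD (Q : ℕ) (D : Finset ℕ) (c : ℕ) : Finset ℕ :=
  (Icc 1 c).filter (fun p => Q * p ≤ c ∧ p.Prime ∧ (p + 2 * c).Prime ∧ ∀ d ∈ D, (p + 2 * (c + d)).Prime)

/-- the conclusion for one `c` -/
def PGc (Q m C E c : ℕ) : Prop := ∃ D ⊆ Icc 1 C, D.card = m ∧ (c : ℝ) / Real.log c ^ E ≤ ((RD Q D c).card : ℝ)

lemma pattern_c (m Q C E E' : ℕ) (hEE : E ≤ E') (b : Fin k → ℕ) (hb : Function.Injective b)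
    (hbC : ∀ i, b i ≤ C) (n : ℕ) (hn : C ≤ n) (hn1 : 1 ≤ n) (hL : 2 ≤ Real.log n) (I : Finset (Fin k)) (hI : I.card = m + 1)
    (hS : (n : ℝ) / Real.log n ^ E ≤ ((RI Q b I n).card : ℝ)) :
    ∃ i₀, PGc Q m C (E' + 1) (n + b i₀) := by
  classical
  have hIne : I.Nonempty := card_pos.1 (by omega)
  obtain ⟨i₀, hi1, hi2⟩ := exists_min_image I b hIne
  refine ⟨i₀, (I.erase i₀).image (fun j => b j - b i₀), ?_, ?_, ?_⟩
  · intro d hd
    rw [mem_image] at hd
    obtain ⟨j, hj, rfl⟩ := hd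
    rw [mem_erase] at hj
    have h1 := hi2 j hj.2
    have h2 : b i₀ ≠ b j := fun h => hj.1 (hb h).symm
    have h3 := hbC j
    rw [mem_Icc]
    omega
  · rw [card_image_of_injOn, card_erase_of_mem hi1, hI]
    · omega
    · intro j hj j' hj' hjj
      rw [mem_coe, mem_erase] at hj hj'
      have h1 := hi2 j hj.2
      have h2 := hi2 j' hj'.2
      simp only at hjj
      exact hb (by omega)
  · obtain ⟨n', hn'⟩ : ∃ n', n' = n + b i₀ := ⟨_, rfl⟩
    have hn'C : n' ≤ 2 * n := by rw [hn']; have := hbC i₀; omega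
    have hnn' : n ≤ n' := by omega
    have hn0 : (1 : ℝ) ≤ n := by exact_mod_cast hn1
    have hLn' : Real.log n ≤ Real.log n' := Real.log_le_log (by linarith) (by exact_mod_cast hnn')
    rw [← hn']
    have g1 : (n' : ℝ) ≤ 2 * n := by exact_mod_cast hn'C
    have g2 : (n' : ℝ) / Real.log n' ^ (E' + 1) ≤ (n : ℝ) / Real.log n ^ E := by
      have h3 : Real.log n ^ E ≤ Real.log n' ^ E' := by
        calc Real.log n ^ E ≤ Real.log n' ^ E := pow_le_pow_left₀ (by linarith) hLn' _
          _ ≤ _ := pow_le_pow_right₀ (by linarith) hEE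
      have h0 : (0 : ℝ) ≤ n := by linarith
      have hLp : 0 < Real.log n := by linarith
      have hLp' : 0 < Real.log n' := by linarith
      rw [div_le_div_iff₀ (by positivity) (by positivity)]
      calc (n' : ℝ) * Real.log n ^ E ≤ (2 * n) * Real.log n' ^ E' := by gcongr
        _ = (n : ℝ) * (Real.log n' ^ E' * 2) := by ring
        _ ≤ (n : ℝ) * (Real.log n' ^ E' * Real.log n') := by
            apply mul_le_mul_of_nonneg_left _ h0
            apply mul_le_mul_of_nonneg_left _ (by positivity)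
            linarith
        _ = _ := by rw [pow_succ]
    refine g2.trans (hS.trans (Nat.cast_le.2 (card_le_card ?_)))
    intro x hx
    unfold RI at hx
    unfold RD
    rw [mem_filter, mem_Icc] at hx ⊢
    obtain ⟨⟨h1, h2⟩, h3, h4, h5⟩ := hx
    refine ⟨⟨h1, by omega⟩, by omega, h4, ?_, ?_⟩
    · have h6 := h5 i₀ hi1
      rwa [← hn'] at h6
    · intro d hd
      rw [mem_image] at hd
      obtain ⟨j, hj, rfl⟩ := hd
      rw [mem_erase] at hj
      have h6 := h5 j hj.2
      have h7 := hi2 j hj.2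
      have e1 : x + 2 * (n' + (b j - b i₀)) = x + 2 * (n + b j) := by omega
      rwa [e1]

end

open Classical in
/-- **patterns of constants.** -/
theorem exactc (m : ℕ) : ∃ κ : ℝ, 0 < κ ∧ ∀ Q C : ℕ, 1 ≤ Q → 1 ≤ C → ∃ E X0 : ℕ, ∀ X : ℕ, X0 ≤ X →
    (((Icc 1 X).filter (fun c => ¬ PGc Q m C E c)).card : ℝ) ≤ κ / C * X := by
  obtain ⟨k, hk, hB⟩ := tupleI (m + 1) (by omega)
  obtain ⟨W₀, hW₀⟩ : ∃ W₀, W₀ = Wp (k + 1) := ⟨_, rfl⟩
  have hW1 : 1 ≤ W₀ := by rw [hW₀]; exact Wp_pos _
  have hWr : (1 : ℝ) ≤ W₀ := by exact_mod_cast hW1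
  have hkr : (1 : ℝ) ≤ k := by exact_mod_cast hk
  obtain ⟨κ, hκ⟩ : ∃ κ : ℝ, κ = 2 * k * W₀ + 3 := ⟨_, rfl⟩
  have hκ0 : 0 < κ := by rw [hκ]; positivity
  refine ⟨κ, hκ0, fun Q C hQ hC => ?_⟩
  have hCr : (1 : ℝ) ≤ C := by exact_mod_cast hC
  by_cases hCW : C < W₀
  · -- small `C`
    refine ⟨0, 0, fun X _ => ?_⟩
    have h1 : ((Icc 1 X).filter (fun n => ¬ PGc Q m C 0 n)).card ≤ X := by
      refine (card_filter_le _ _).trans ?_
      simp
    have h2 : (1 : ℝ) ≤ κ / C := by
      rw [one_le_div (by linarith), hκ]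
      have : (C : ℝ) ≤ W₀ := by exact_mod_cast hCW.le
      nlinarith
    have h3 : (X : ℝ) ≤ κ / C * X := le_mul_of_one_le_left (Nat.cast_nonneg _) h2
    exact le_trans (by exact_mod_cast h1) h3
  · push Not at hCW
    obtain ⟨T, hT⟩ : ∃ T, T = C / W₀ := ⟨_, rfl⟩
    have hTC : W₀ * T ≤ C := by rw [hT]; exact Nat.mul_div_le C W₀
    have hT1 : 1 ≤ T := by rw [hT]; exact (Nat.one_le_div_iff (by omega)).2 hCW
    have hCT : C < W₀ * (T + 1) := by rw [hT]; exact Nat.lt_mul_div_succ C (by omega)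
    obtain ⟨q, hq⟩ : ∃ q, q = Fintype.card (Fin k → Fin T) := ⟨_, rfl⟩
    obtain ⟨ε, hε⟩ : ∃ ε : ℝ, ε = 1 / (C * (q + 1)) := ⟨_, rfl⟩
    have hε0 : 0 < ε := by rw [hε]; positivity
    have hbinj : ∀ t : Fin k → Fin T, Function.Injective t → Function.Injective (fun i => W₀ * ((t i : ℕ) + 1)) := by
      intro t ht i j hij
      simp only at hij
      have h3 := Nat.eq_of_mul_eq_mul_left (by omega) hij
      exact ht (Fin.ext (by omega))
    have hex : ∀ t : Fin k → Fin T, ∃ E X0 : ℕ, Function.Injective t → ∀ X : ℕ, X0 ≤ X →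
        (((Icc 1 X).filter (fun n : ℕ => ¬ ∃ I : Finset (Fin k), I.card = m + 1 ∧ (n : ℝ) / Real.log n ^ E ≤
            ((RI Q (fun i => W₀ * ((t i : ℕ) + 1)) I n).card : ℝ))).card : ℝ) ≤ ε * X := by
      intro t
      by_cases ht : Function.Injective t
      · obtain ⟨E, X0, h⟩ := hB (fun i => W₀ * ((t i : ℕ) + 1)) (hbinj t ht) (by
          intro p hp hpk l
          have : p ∣ W₀ := by rw [hW₀]; exact dvd_Wp (mem_pz.2 ⟨hpk, hp⟩)
          exact this.mul_right _) Q hQ ε hε0
        exact ⟨E, X0, fun _ => h⟩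
      · exact ⟨0, 0, fun h => absurd h ht⟩
    choose E X0 hEX using hex
    obtain ⟨E', hE'⟩ : ∃ E', E' = univ.sup E := ⟨_, rfl⟩
    have hEE : ∀ t, E t ≤ E' := fun t => by rw [hE']; exact le_sup (mem_univ t)
    obtain ⟨n1, h1⟩ := ev_L' 2
    obtain ⟨n0, hn0⟩ : ∃ n0, n0 = max n1 (C + 1) := ⟨_, rfl⟩
    refine ⟨E' + 1, max (univ.sup X0) (C * (C + q * n0)), fun X hX => ?_⟩
    have hX1 : ∀ t, X0 t ≤ X := fun t => (le_sup (f := X0) (mem_univ t)).trans (le_trans (le_max_left _ _) hX)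
    have hX2 : C * (C + q * n0) ≤ X := le_trans (le_max_right _ _) hX
    have key := shift_density k T W₀ X hT1 (fun n => ¬ PGc Q m C (E' + 1) n) (n0 + ε * X) (by positivity) (by
      intro t ht
      have hsub : (Icc 1 X).filter (fun n => ∀ i, ¬ PGc Q m C (E' + 1) (n + W₀ * ((t i : ℕ) + 1))) ⊆
          range n0 ∪ (Icc 1 X).filter (fun n : ℕ => ¬ ∃ I : Finset (Fin k), I.card = m + 1 ∧ (n : ℝ) / Real.log n ^ (E t) ≤
            ((RI Q (fun i => W₀ * ((t i : ℕ) + 1)) I n).card : ℝ)) := by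
        intro n hn
        rw [mem_filter] at hn
        obtain ⟨hn1, hn2⟩ := hn
        rw [mem_union, mem_range]
        by_cases hn3 : n < n0
        · exact Or.inl hn3
        · right
          have hn4 : n1 ≤ n := le_trans (le_max_left _ _) (by rw [← hn0]; omega)
          have hn5 : C + 1 ≤ n := le_trans (le_max_right _ _) (by rw [← hn0]; omega)
          rw [mem_filter]
          refine ⟨hn1, ?_⟩
          rintro ⟨I, hI1, hI2⟩
          obtain ⟨i₀, hi₀⟩ := pattern_c m Q C (E t) E' (hEE t) (fun i => W₀ * ((t i : ℕ) + 1)) (hbinj t ht) (by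
              intro i
              refine le_trans (Nat.mul_le_mul_left _ ?_) hTC
              have := (t i).2
              omega) n (by omega) (by omega) (h1 n hn4) I hI1 hI2
          exact hn2 i₀ hi₀
      have h3 := (card_le_card hsub).trans (card_union_le _ _)
      rw [card_range] at h3
      have h4 : (((Icc 1 X).filter (fun n => ∀ i, ¬ PGc Q m C (E' + 1) (n + W₀ * ((t i : ℕ) + 1)))).card : ℝ) ≤
          n0 + (((Icc 1 X).filter (fun n : ℕ => ¬ ∃ I : Finset (Fin k), I.card = m + 1 ∧ (n : ℝ) / Real.log n ^ (E t) ≤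
            ((RI Q (fun i => W₀ * ((t i : ℕ) + 1)) I n).card : ℝ))).card : ℝ) := by exact_mod_cast h3
      have h5 := hEX t ht X (hX1 t)
      refine le_trans (Nat.cast_le.2 (card_le_card (fun n hn => ?_))) (h4.trans (by linarith))
      exact (@mem_filter _ _ (_) _ _).2 ((@mem_filter _ _ (_) _ _).1 hn))
    refine le_trans (Nat.cast_le.2 (card_le_card (fun n hn => ?_))) (key.trans ?_)
    · exact (@mem_filter _ _ (_) _ _).2 ((@mem_filter _ _ (_) _ _).1 hn)
    rw [← hq]
    have hT0 : (0 : ℝ) < T := by exact_mod_cast hT1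
    have hX0 : (0 : ℝ) ≤ X := Nat.cast_nonneg _
    have h15 : (k : ℝ) * X / T ≤ 2 * k * W₀ / C * X := by
      have h16 : (C : ℝ) ≤ 2 * W₀ * T := by
        have : C ≤ 2 * (W₀ * T) := by
          have h17 : W₀ * 1 ≤ W₀ * T := Nat.mul_le_mul_left _ hT1
          have h18 : W₀ * (T + 1) = W₀ * T + W₀ := by ring
          omega
        have h19 : (C : ℝ) ≤ ((2 * (W₀ * T) : ℕ) : ℝ) := by exact_mod_cast this
        push_cast at h19
        linarith
      have e1 : 2 * (k : ℝ) * W₀ / C * X = (k * X) * ((2 * W₀) / C) := by ring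
      have e2 : (k : ℝ) * X / T = (k * X) * (1 / T) := by ring
      rw [e1, e2]
      apply mul_le_mul_of_nonneg_left _ (by positivity)
      rw [div_le_div_iff₀ hT0 (by linarith)]
      linarith
    have h20 : (W₀ : ℝ) * T + q * n0 ≤ X / C := by
      rw [le_div_iff₀ (by linarith)]
      have h21 : ((C * (C + q * n0) : ℕ) : ℝ) ≤ X := by exact_mod_cast hX2
      have h22 : (W₀ : ℝ) * T ≤ C := by exact_mod_cast hTC
      push_cast at h21
      nlinarith
    have h23 : (q : ℝ) * (ε * X) ≤ X / C := by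
      rw [hε]
      have e1 : (q : ℝ) * (1 / (C * (q + 1)) * X) = (q / (q + 1)) * (X / C) := by field_simp
      rw [e1]
      have h2 : (q : ℝ) / (q + 1) ≤ 1 := by rw [div_le_one (by positivity)]; linarith
      calc _ ≤ 1 * ((X : ℝ) / C) := mul_le_mul_of_nonneg_right h2 (by positivity)
        _ = _ := one_mul _
    have h24 : κ / C * X = 2 * k * W₀ / C * X + X / C + X / C + X / C := by
      rw [hκ]; ring
    have h25 : 0 ≤ (X : ℝ) / C := by positivity
    have h26 : (q : ℝ) * (n0 + ε * X) = q * n0 + q * (ε * X) := by ring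
    rw [h24, h26]
    linarith

end Pool.Agent.L0h42.SC
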